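import Pool.Agent.H81.LU.YDefs

/-!
Project LU, part Y: statements of the modules of the five-dimensional route.
-/

set_option autoImplicit false
set_option linter.unusedVariables false

open scoped BigOperators Topology
open Filter Pool.H3.L2

noncomputable section

namespace Pool.LU

/-- The based complex `A` over `ℤ` is, over every commutative ring, the complex of the
antisymmetric families of functions on `X`. -/
def IsModel (A : BCx ℤ) {V : Type} [Fintype V] [DecidableEq V] (adj : V → V → Prop) (o : V → ℕ)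
    (X : Type) (ρ : V → X → X) : Prop :=
  ∀ (F : Type) [CommRing F], ∃ Φ : (A.S → F) →ₗ[F] (Finset V → X → F), Function.Injective Φ ∧
    (∀ x, x ∈ LinearMap.range Φ ↔ AllCh adj ρ x) ∧
    (∀ v k, (∀ s : A.S, A.deg s ≠ k → v s = 0) ↔ ∀ σ, Φ v σ ≠ 0 → σ.card = k) ∧
    ∀ v, Φ (Matrix.vecMul v (A.D.map (Int.castRingHom F))) = bd F o X (Φ v)

/-- GEN (helper83): two models of isomorphic sets with action have the same homology. -/
def GENStmt : Prop := ∀ (V : Type) [Fintype V] [DecidableEq V] (adj : V → V → Prop) (o : V → ℕ)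
  (X Y : Type) (ρ : V → X → X) (ρ' : V → Y → Y) (e : X ≃ Y),
  (∀ v x, e (ρ v x) = ρ' v (e x)) → ∀ A B : BCx ℤ, IsModel A adj o X ρ → IsModel B adj o Y ρ' →
  (∀ k, A.torsOrd k = B.torsOrd k) ∧ ∀ (K : Type) [Field K] (k : ℕ), A.betti K k = B.betti K k

/-- MCY (helper13): the cyclic quotients of the Morse complex are models of the cyclic covers. -/
def MCYStmt : Prop := ∀ (V : Type) [Fintype V] [DecidableEq V] (adj : V → V → Prop)
  (H : HSet V adj) (o : V → ℕ) (ho : Function.Injective o) (m : ℕ) [NeZero m],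
  IsModel (cyc (H.Mor o ho) m) adj o (H.X × ZMod m) (H.cov m)

/-- FIL (helper72): the homology of the Morse complex modulo `u`. -/
def FILStmt : Prop := ∀ (V : Type) [Fintype V] [DecidableEq V] (adj : V → V → Prop)
  (H : HSet V adj) (o : V → ℕ) (ho : Function.Injective o),
  (∀ x k, k ≠ 2 → Subsingleton ((St adj o ho (H.des x)).Hk k)) →
  (∀ x, Finite ((St adj o ho (H.des x)).Hk 2)) →
  (∀ k, k ≠ 2 → Subsingleton ((at0 (H.Mor o ho)).Hk k)) ∧
  Finite ((at0 (H.Mor o ho)).Hk 2) ∧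
  Nat.card ((at0 (H.Mor o ho)).Hk 2) = ∏ x : H.X, Nat.card ((St adj o ho (H.des x)).Hk 2)

/-- TG (helper32, helper39): torsion growth in the cyclic quotients of a complex over `ℤ[u]`. -/
def TGStmt : Prop := ∀ C : BCx (Polynomial ℤ),
  (∀ k, k ≠ 2 → Subsingleton ((at0 C).Hk k)) → Finite ((at0 C).Hk 2) →
  1 < Nat.card ((at0 C).Hk 2) →
  (∃ B : ℕ, ∀ (m : ℕ) [NeZero m] (k : ℕ), (cyc C m).betti ℝ k ≤ B) ∧
  ∀ a : ℝ, a < Real.log (Nat.card ((at0 C).Hk 2)) → ∀ M : ℕ, ∃ (m : ℕ) (_ : NeZero m), M ≤ m ∧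
    a * (m : ℝ) ≤ Real.log ((cyc C m).torsOrd 2)

/-! ### groups -/

section

variable {V : Type} [Fintype V] [DecidableEq V] {adj : V → V → Prop} {W : Type} [Group W]

/-- the product of the signs in the colour class number `c` -/
def cc (R : RA V adj W) {n : ℕ} (κ : V → Fin n) (c : Fin n) (w : W) : ℤˣ :=
  ∏ v ∈ Finset.univ.filter (fun v => κ v = c), R.χ w v

/-- The height function on `W`: crossing the wall of type `v` changes it by
`s v * cc (κ v)`. -/
structure IsHt (R : RA V adj W) {n : ℕ} (κ : V → Fin n) (s : V → ℤˣ) (h : W → ℤ) : Prop where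
  one : h 1 = 0
  step : ∀ w v, h (w * R.s v) = h w + ((s v * cc R κ (κ v) w : ℤˣ) : ℤ)

/-- the state for the signs `b` of the colours: the descending vertices -/
def stA {V : Type} [Fintype V] {n : ℕ} (κ : V → Fin n) (s : V → ℤˣ) (b : Fin n → ℤˣ) : Finset V :=
  Finset.univ.filter (fun v => s v * b (κ v) = -1)

end

/-- HGT (helper22): existence of the height function (the hypothesis `UNIStmt` is proved by
helper3). -/
def HGTStmt : Prop := ∀ (V : Type) [Fintype V] [DecidableEq V] (adj : V → V → Prop),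
  (∀ u v, adj u v → adj v u) → ∀ (W : Type) [Group W] (R : RA V adj W) (n : ℕ) (κ : V → Fin n)
  (s : V → ℤˣ), (∀ u v, adj u v → κ u ≠ κ v) → ∃ h : W → ℤ, IsHt R κ s h

/-- NST (helper22): the set `N \ W` with heights modulo `d`, and the cyclic covers, for a normal
subgroup of finite index `K` of the kernel of `χ` (`N = K`, as a subgroup of `W`). -/
def NSTStmt : Prop := ∀ (V : Type) [Fintype V] [DecidableEq V] (adj : V → V → Prop),
  (∀ u v, adj u v → adj v u) → ∀ (W : Type) [Group W] (R : RA V adj W) (n : ℕ) (κ : V → Fin n)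
  (s : V → ℤˣ), (∀ u v, adj u v → κ u ≠ κ v) → (∃ u v, κ u = κ v ∧ s u ≠ s v) →
  ∀ h : W → ℤ, IsHt R κ s h → ∀ (K : Subgroup R.χ.ker) [K.Normal] [K.FiniteIndex],
  ∃ (H : HSet V adj) (col : H.X → Fin n → ℤˣ),
    (∀ x, H.des x = stA κ s (col x)) ∧
    (∀ v x c, col (H.ρ v x) c = if c = κ v then - col x c else col x c) ∧
    Fintype.card H.X = 2 ^ Fintype.card V * K.index ∧
    ∀ (m : ℕ) [NeZero m], ∃ (K' : Subgroup R.χ.ker) (_ : K'.Normal) (_ : K'.FiniteIndex),
      K' ≤ K ∧ K'.index = K.index * m ∧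
      ∀ (h1 : K'.map R.χ.ker.subtype ≤ R.χ.ker) (h2 : (K'.map R.χ.ker.subtype).FiniteIndex),
      ∃ e : (cosX R (K'.map R.χ.ker.subtype) h1 h2).X ≃ H.X × ZMod m,
        ∀ v x, e ((cosX R (K'.map R.χ.ker.subtype) h1 h2).ρ v x) = H.cov m v (e x)

/-- RESZ (helper99): the cubical resolution, with its finite covers over all commutative rings. -/
def RESZStmt : Prop := ∀ (V : Type) [Fintype V] [DecidableEq V] (adj : V → V → Prop),
  (∀ u v, adj u v → adj v u) → (∀ v, ¬ adj v v) → ∀ (W : Type) [Group W] (R : RA V adj W)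
  (o : V → ℕ), Function.Injective o → ∃ C : BCx (GR R.χ.ker), C.IsRes ∧
  ∀ (N : Subgroup R.χ.ker) [N.Normal] [N.FiniteIndex] (h1 : N.map R.χ.ker.subtype ≤ R.χ.ker)
    (h2 : (N.map R.χ.ker.subtype).FiniteIndex),
    IsModel (C.cover N) adj o (cosX R (N.map R.χ.ker.subtype) h1 h2).X
      (cosX R (N.map R.χ.ker.subtype) h1 h2).ρ

/-- CNT (helper85): every state occurs equally often. -/
def CNTStmt : Prop := ∀ (V : Type) (X : Type) [Fintype X] [DecidableEq X] (n : ℕ)
  (κ : V → Fin n) (ρ : V → X → X) (col : X → Fin n → ℤˣ), (∀ v x, ρ v (ρ v x) = x) →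
  (∀ v x c, col (ρ v x) c = if c = κ v then - col x c else col x c) → (∀ c, ∃ v, κ v = c) →
  ∀ b : Fin n → ℤˣ, 2 ^ n * (Finset.univ.filter (fun x : X => col x = b)).card = Fintype.card X

/-- LVL (helper85): the growth at one level: for every normal subgroup `K` of finite index of the
kernel of `χ` there are normal subgroups `K' ≤ K` of arbitrarily large index with bounded Betti
numbers and large torsion. `ε` is the same for all `K`. -/
def LVLStmt : Prop := ∀ (V : Type) [Fintype V] [DecidableEq V] (adj : V → V → Prop),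
  (∀ u v, adj u v → adj v u) → (∀ v, ¬ adj v v) → ∀ (W : Type) [Group W] (R : RA V adj W)
  (o : V → ℕ) (ho : Function.Injective o) (n : ℕ) (κ : V → Fin n) (s : V → ℤˣ),
  (∀ u v, adj u v → κ u ≠ κ v) → (∃ u v, κ u = κ v ∧ s u ≠ s v) → (∀ c, ∃ v, κ v = c) →
  (∀ b k, k ≠ 2 → Subsingleton ((St adj o ho (stA κ s b)).Hk k)) →
  (∀ b, Finite ((St adj o ho (stA κ s b)).Hk 2)) →
  (∃ b, 1 < Nat.card ((St adj o ho (stA κ s b)).Hk 2)) →
  ∃ C : BCx (GR R.χ.ker), C.IsRes ∧ ∃ ε : ℝ, 0 < ε ∧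
    ∀ (K : Subgroup R.χ.ker) [K.Normal] [K.FiniteIndex], ∃ B : ℕ, ∀ M : ℕ,
    ∃ (K' : Subgroup R.χ.ker) (_ : K'.Normal) (_ : K'.FiniteIndex), K' ≤ K ∧ M ≤ K'.index ∧
      (∀ k, (C.cover K').betti ℝ k ≤ B) ∧
      ε * (K'.index : ℝ) ≤ Real.log ((C.cover K').torsOrd 2)

/-- CHN (helper85): the chain. -/
def CHNStmt : Prop := ∀ (G : Type) [Group G] (c : WChain G) (C : BCx (GR G)) (ε : ℝ), 0 < ε →
  (∀ (K : Subgroup G) [K.Normal] [K.FiniteIndex], ∃ B : ℕ, ∀ M : ℕ,
    ∃ (K' : Subgroup G) (_ : K'.Normal) (_ : K'.FiniteIndex), K' ≤ K ∧ M ≤ K'.index ∧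
      (∀ k, (C.cover K').betti ℝ k ≤ B) ∧
      ε * (K'.index : ℝ) ≤ Real.log ((C.cover K').torsOrd 2)) →
  ∃ c' : WChain G,
    (∀ j, Tendsto (fun i => ((C.cover (c'.N i)).betti ℝ j : ℝ) / ((c'.N i).index : ℝ))
      atTop (𝓝 0)) ∧
    ∃ᶠ i in atTop, ε * ((c'.N i).index : ℝ) ≤ Real.log ((C.cover (c'.N i)).torsOrd 2)

/-! ### the certificate -/

/-- The data of the five-dimensional manifold `Y`: a simple polytope of dimension 5 with a proper
colouring of the facets with 5 colours and signs, such that all states have no homology except in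
degree 1 (degree 2 in the shifted indexing), where it is finite, and not zero for one state. -/
structure YCert : Type 1 where
  V : Type
  [fV : Fintype V]
  [dV : DecidableEq V]
  P : SPoly 5 V
  good : P.Good
  κ : V → Fin 5
  s : V → ℤˣ
  proper : ∀ u v, P.adj u v → κ u ≠ κ v
  mix : ∃ u v, κ u = κ v ∧ s u ≠ s v
  surj : ∀ c, ∃ v, κ v = c
  o : V → ℕ
  ho : Function.Injective o
  triv : ∀ b k, k ≠ 2 → Subsingleton ((St P.adj o ho (stA κ s b)).Hk k)
  fin : ∀ b, Finite ((St P.adj o ho (stA κ s b)).Hk 2)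
  bad : ∃ b, 1 < Nat.card ((St P.adj o ho (stA κ s b)).Hk 2)

attribute [instance] YCert.fV YCert.dV

end Pool.LU
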