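import Pool.Agent.H81.LU.YStmts
import Pool.Agent.H3.LU.TopR
import Pool.Agent.H3.LU.BMain
import Pool.Agent.H3.LU.Uni
import Pool.Agent.H99.LU.CAsm
import Pool.Agent.H46.LU.DIM

/-!
Project LU, part Y: final assembly of the five-dimensional route.
-/

set_option autoImplicit false

open scoped BigOperators Topology
open Filter Pool.H3.L2

noncomputable section

namespace Pool.LU

/-- chains in the kernel of `χ` -/
theorem exists_wchain {V : Type} [Fintype V] [DecidableEq V] {adj : V → V → Prop}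
    (hs : ∀ u v, adj u v → adj v u) {W : Type} [Group W] (R : RA V adj W) :
    Nonempty (WChain R.χ.ker) := by
  obtain ⟨c⟩ := rsd V adj hs W R
  have hfin := c.fin
  have hnorm := c.normal
  exact ⟨{
    N := fun i => (c.N i).subgroupOf R.χ.ker
    normal := fun i => (hnorm i).subgroupOf _
    fin := fun i => by
      haveI := hfin i
      infer_instance
    anti := fun i j hij => Subgroup.comap_mono (c.anti hij)
    inf := by
      have h1 : (⨅ i, (c.N i).subgroupOf R.χ.ker) = (⨅ i, c.N i).subgroupOf R.χ.ker := by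
        unfold Subgroup.subgroupOf
        rw [Subgroup.comap_iInf]
      rw [h1, c.inf]
      exact Subgroup.bot_subgroupOf _ }⟩

/-- Part Y from the certificate. -/
theorem partY_of_cert (lvl : LVLStmt) (chn : CHNStmt) (Y : YCert) : Nonempty PartY := by
  classical
  obtain ⟨W, iW, ⟨R⟩⟩ := rax Y.V Y.P.adj Y.P.adj_symm Y.P.adj_irrefl
  obtain ⟨-, d2, -⟩ := dim _ Y.V Y.P Y.good
  obtain ⟨u, v, huv, hadj⟩ := d2 (by omega)
  haveI : Infinite R.χ.ker := inf Y.V Y.P.adj Y.P.adj_symm W R u v huv hadj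
  obtain ⟨C, hC, ε, hε, hK⟩ := lvl Y.V Y.P.adj Y.P.adj_symm Y.P.adj_irrefl W R Y.o Y.ho 5 Y.κ Y.s
    Y.proper Y.mix Y.surj Y.triv Y.fin Y.bad
  obtain ⟨c⟩ := exists_wchain Y.P.adj_symm R
  obtain ⟨c', h1, h2⟩ := chn R.χ.ker c C ε hε hK
  exact exists_partY (k := 2) (partB1_main 5 Y.V Y.P W R Y.good) C hC c' h1 ε hε h2

theorem partR_of_cert (lvl : LVLStmt) (chn : CHNStmt) (Y : YCert) (hQ : Q1) : Nonempty PartR := by
  obtain ⟨Z⟩ := partY_of_cert lvl chn Y
  exact ⟨Z.toR hQ⟩

end Pool.LU
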