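import Pool.Agent.H99.LU.RDefs
import Pool.Agent.H72.LU.CHB

/-!
Project LU, part Y: definitions. Complexes over `ℤ[u]`, their cyclic quotients, the complexes of
cubes below their maximal vertices (Morse bases), the augmented complexes of the states.
-/

set_option autoImplicit false

open scoped BigOperators Topology
open Filter Pool.H3.L2

noncomputable section

namespace Pool.LU

/-! ### complexes over `ℤ[u]` -/

/-- `C / u` -/
def at0 (C : BCx (Polynomial ℤ)) : BCx ℤ := C.map (Polynomial.evalRingHom 0)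

/-- the matrix of the multiplication by `u` on `ℤ[u] / (u ^ m - 1)` -/
def shiftM (m : ℕ) : Matrix (ZMod m) (ZMod m) ℤ := fun i j => if j = i + 1 then 1 else 0

/-- the boundary matrix of `C / (u ^ m - 1)` -/
def cycD (C : BCx (Polynomial ℤ)) (m : ℕ) [NeZero m] :
    Matrix (C.S × ZMod m) (C.S × ZMod m) ℤ :=
  fun s t => (Polynomial.aeval (shiftM m) (C.D s.1 t.1) : Matrix (ZMod m) (ZMod m) ℤ) s.2 t.2

theorem cycD_mul (C : BCx (Polynomial ℤ)) (m : ℕ) [NeZero m] : cycD C m * cycD C m = 0 := by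
  ext s t
  have h0 : (cycD C m * cycD C m) s t = ∑ x : C.S, ∑ y : ZMod m,
      (Polynomial.aeval (shiftM m) (C.D s.1 x) : Matrix (ZMod m) (ZMod m) ℤ) s.2 y *
        (Polynomial.aeval (shiftM m) (C.D x t.1) : Matrix (ZMod m) (ZMod m) ℤ) y t.2 := by
    rw [Matrix.mul_apply, Fintype.sum_prod_type]
    rfl
  have h1 : ∀ x : C.S, ∑ y : ZMod m,
      (Polynomial.aeval (shiftM m) (C.D s.1 x) : Matrix (ZMod m) (ZMod m) ℤ) s.2 y *
        (Polynomial.aeval (shiftM m) (C.D x t.1) : Matrix (ZMod m) (ZMod m) ℤ) y t.2 =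
        (Polynomial.aeval (shiftM m) (C.D s.1 x * C.D x t.1) :
          Matrix (ZMod m) (ZMod m) ℤ) s.2 t.2 := by
    intro x
    rw [map_mul, Matrix.mul_apply]
  have h2 : ∑ x : C.S, (Polynomial.aeval (shiftM m) (C.D s.1 x * C.D x t.1) :
      Matrix (ZMod m) (ZMod m) ℤ) s.2 t.2 =
      (Polynomial.aeval (shiftM m) ((C.D * C.D) s.1 t.1) :
        Matrix (ZMod m) (ZMod m) ℤ) s.2 t.2 := by
    rw [Matrix.mul_apply, map_sum, Matrix.sum_apply]
  rw [h0, Finset.sum_congr rfl fun x _ => h1 x, h2, C.D_D, Matrix.zero_apply, map_zero]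
  rfl

/-- `C / (u ^ m - 1)`, with the basis `s * u ^ i` -/
def cyc (C : BCx (Polynomial ℤ)) (m : ℕ) [NeZero m] : BCx ℤ where
  S := C.S × ZMod m
  deg s := C.deg s.1
  D := cycD C m
  deg_D := by
    intro s t h
    refine C.deg_D _ _ fun h0 => h ?_
    unfold cycD
    rw [h0, map_zero]
    rfl
  D_D := cycD_mul C m

/-! ### complexes of cubes below their maximal vertices -/

/-- A finite set `X` with maps `ρ v`, for every element `x` a finite set `des x` of vertices (the
descending ones), and weights `w v x` (of the step from `x` down to `ρ v x`). -/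
structure WSet (K : Type) [CommRing K] (V : Type) (adj : V → V → Prop) where
  X : Type
  [fin : Fintype X]
  [dec : DecidableEq X]
  ρ : V → X → X
  des : X → Finset V
  w : V → X → K
  comm : ∀ u v, adj u v → ∀ x, ρ u (ρ v x) = ρ v (ρ u x)
  des_ne : ∀ u v, adj u v → ∀ x, u ∈ des x → v ∈ des x → u ∈ des (ρ v x)
  w_comm : ∀ u v, adj u v → ∀ x, u ∈ des x → v ∈ des x →
    w v x * w u (ρ v x) = w u x * w v (ρ u x)

attribute [instance] WSet.fin WSet.dec

namespace WSet

variable {K : Type} [CommRing K] {V : Type} {adj : V → V → Prop}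

/-- The cubes: an element `x` (the maximal vertex) and a clique of descending vertices. -/
abbrev Cell (H : WSet K V adj) : Type := {p : H.X × Finset V // Clq adj p.2 ∧ p.2 ⊆ H.des p.1}

instance [Fintype V] (H : WSet K V adj) : Fintype H.Cell := Fintype.ofFinite _

variable [DecidableEq V]

/-- The boundary matrix. -/
def mat (H : WSet K V adj) (o : V → ℕ) : Matrix H.Cell H.Cell K := fun p q =>
  ∑ v ∈ p.1.2, if q.1.2 = p.1.2.erase v then
    ((sg o v (p.1.2.erase v) : ℤ) : K) *
      ((if q.1.1 = p.1.1 then 1 else 0) - (if q.1.1 = H.ρ v p.1.1 then H.w v p.1.1 else 0))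
  else 0

/-- extension by zero -/
def ex (H : WSet K V adj) (f : H.Cell → K) (x : H.X) (σ : Finset V) : K :=
  by
    classical
    exact if h : Clq adj σ ∧ σ ⊆ H.des x then f ⟨(x, σ), h⟩ else 0

variable [Fintype V]

theorem sum_ite (H : WSet K V adj) (f : H.Cell → K) (x : H.X) (σ : Finset V) (c : K) :
    ∑ q : H.Cell, (if q.1.2 = σ then (if q.1.1 = x then c else 0) else 0) * f q =
      c * H.ex f x σ := by
  classical
  unfold ex
  split_ifs with h
  · rw [Finset.sum_eq_single (⟨(x, σ), h⟩ : H.Cell)]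
    · rw [if_pos rfl, if_pos rfl]
    · intro q _ hq
      by_cases h1 : q.1.2 = σ
      · by_cases h2 : q.1.1 = x
        · exact absurd (Subtype.ext (Prod.ext h2 h1)) hq
        · rw [if_pos h1, if_neg h2, zero_mul]
      · rw [if_neg h1, zero_mul]
    · intro h1
      exact absurd (Finset.mem_univ _) h1
  · rw [mul_zero]
    refine Finset.sum_eq_zero fun q _ => ?_
    by_cases h1 : q.1.2 = σ
    · by_cases h2 : q.1.1 = x
      · exfalso
        apply h
        rw [← h1, ← h2]
        exact q.2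
      · rw [if_pos h1, if_neg h2, zero_mul]
    · rw [if_neg h1, zero_mul]

theorem mat_mulVec (H : WSet K V adj) (o : V → ℕ) (f : H.Cell → K) (p : H.Cell) :
    (H.mat o).mulVec f p = ∑ v ∈ p.1.2, ((sg o v (p.1.2.erase v) : ℤ) : K) *
      (H.ex f p.1.1 (p.1.2.erase v) - H.w v p.1.1 * H.ex f (H.ρ v p.1.1) (p.1.2.erase v)) := by
  have h0 : (H.mat o).mulVec f p = ∑ q : H.Cell, H.mat o p q * f q := rfl
  rw [h0]
  unfold mat
  simp only [Finset.sum_mul]
  rw [Finset.sum_comm]
  refine Finset.sum_congr rfl fun v _ => ?_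
  rw [mul_sub]
  have h1 := H.sum_ite f p.1.1 (p.1.2.erase v) 1
  have h2 := H.sum_ite f (H.ρ v p.1.1) (p.1.2.erase v) (H.w v p.1.1)
  rw [one_mul] at h1
  rw [← h1, ← h2, Finset.mul_sum, Finset.mul_sum, ← Finset.sum_sub_distrib]
  refine Finset.sum_congr rfl fun q _ => ?_
  split_ifs <;> ring

theorem ex_mulVec (H : WSet K V adj) (o : V → ℕ) (f : H.Cell → K) (x : H.X) (σ : Finset V)
    (h1 : Clq adj σ) (h2 : σ ⊆ H.des x) :
    H.ex ((H.mat o).mulVec f) x σ = ∑ v ∈ σ, ((sg o v (σ.erase v) : ℤ) : K) *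
      (H.ex f x (σ.erase v) - H.w v x * H.ex f (H.ρ v x) (σ.erase v)) := by
  have h3 : H.ex ((H.mat o).mulVec f) x σ = (H.mat o).mulVec f ⟨(x, σ), h1, h2⟩ := by
    unfold ex
    rw [dif_pos ⟨h1, h2⟩]
  rw [h3, mat_mulVec]

omit [Fintype V] in
theorem des_erase (H : WSet K V adj) {x : H.X} {σ : Finset V} (h1 : Clq adj σ)
    (h2 : σ ⊆ H.des x) {v : V} (hv : v ∈ σ) : σ.erase v ⊆ H.des (H.ρ v x) := by
  intro u hu
  obtain ⟨h3, h4⟩ := Finset.mem_erase.1 hu
  exact H.des_ne u v (h1 u h4 v hv h3) x (h2 h4) (h2 hv)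

omit [Fintype V] in
theorem clq_erase {σ : Finset V} (h1 : Clq adj σ) (v : V) : Clq adj (σ.erase v) :=
  fun a ha b hb h => h1 a (Finset.mem_of_mem_erase ha) b (Finset.mem_of_mem_erase hb) h

theorem mat_mat (H : WSet K V adj) (o : V → ℕ) (ho : Function.Injective o) :
    H.mat o * H.mat o = 0 := by
  have key : ∀ (f : H.Cell → K) (p : H.Cell), (H.mat o).mulVec ((H.mat o).mulVec f) p = 0 := by
    intro f p
    obtain ⟨⟨x, σ⟩, h1, h2⟩ := p
    rw [mat_mulVec]
    simp only at h1 h2 ⊢
    let G : V → V → K := fun v u =>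
      H.ex f x ((σ.erase v).erase u) - H.w u x * H.ex f (H.ρ u x) ((σ.erase v).erase u) -
        H.w v x * (H.ex f (H.ρ v x) ((σ.erase v).erase u) -
          H.w u (H.ρ v x) * H.ex f (H.ρ u (H.ρ v x)) ((σ.erase v).erase u))
    have e1 : ∀ v ∈ σ, ((sg o v (σ.erase v) : ℤ) : K) *
        (H.ex ((H.mat o).mulVec f) x (σ.erase v) -
          H.w v x * H.ex ((H.mat o).mulVec f) (H.ρ v x) (σ.erase v)) =
        ∑ u ∈ σ.erase v, ((sg o v (σ.erase v) : ℤ) : K) *
          ((sg o u ((σ.erase v).erase u) : ℤ) : K) * G v u := by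
      intro v hv
      rw [ex_mulVec H o f x (σ.erase v) (clq_erase h1 v)
        ((Finset.erase_subset v σ).trans h2),
        ex_mulVec H o f (H.ρ v x) (σ.erase v) (clq_erase h1 v) (des_erase H h1 h2 hv),
        Finset.mul_sum, ← Finset.sum_sub_distrib, Finset.mul_sum]
      refine Finset.sum_congr rfl fun u _ => ?_
      show _ = _ * _ * (_ - _)
      ring
    rw [Finset.sum_congr rfl e1, Finset.sum_sigma']
    refine Finset.sum_involution (fun a _ => ⟨a.2, a.1⟩) ?_ ?_ ?_ ?_
    · rintro ⟨v, u⟩ hm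
      simp only [Finset.mem_sigma, Finset.mem_erase] at hm
      obtain ⟨hv, huv, hu⟩ := hm
      have hadj : adj u v := h1 u hu v hv huv
      have hadj' : adj v u := h1 v hv u hu (fun h => huv h.symm)
      have hG : G u v = G v u := by
        show _ - _ - _ * (_ - _) = _ - _ - _ * (_ - _)
        have e2 : (σ.erase u).erase v = (σ.erase v).erase u := Finset.erase_right_comm
        have e3 := H.comm u v hadj x
        have e4 := H.w_comm u v hadj x (h2 hu) (h2 hv)
        rw [e2, ← e3]
        linear_combination -(H.ex f (H.ρ u (H.ρ v x)) ((σ.erase v).erase u)) * e4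
      have h3 := sg_swap o ho u v huv ((σ.erase v).erase u)
        (by simp) (by simp)
      have e5 : insert v ((σ.erase v).erase u) = σ.erase u := by
        rw [← Finset.erase_right_comm, Finset.insert_erase (Finset.mem_erase.2 ⟨fun h => huv h.symm, hv⟩)]
      have e6 : insert u ((σ.erase v).erase u) = σ.erase v :=
        Finset.insert_erase (Finset.mem_erase.2 ⟨huv, hu⟩)
      rw [e5, e6] at h3
      have e7 : (σ.erase u).erase v = (σ.erase v).erase u := Finset.erase_right_comm
      simp only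
      rw [hG, e7]
      have h4 : ((sg o v ((σ.erase v).erase u) : ℤ) : K) * ((sg o u (σ.erase u) : ℤ) : K) =
          - (((sg o u ((σ.erase v).erase u) : ℤ) : K) * ((sg o v (σ.erase v) : ℤ) : K)) := by
        exact_mod_cast congrArg (fun z : ℤ => (z : K)) h3
      linear_combination (G v u) * h4
    · rintro ⟨v, u⟩ hm _ h
      simp only [Finset.mem_sigma, Finset.mem_erase] at hm
      exact hm.2.1 (congrArg Sigma.fst h)
    · rintro ⟨v, u⟩ hm
      simp only [Finset.mem_sigma, Finset.mem_erase] at hm ⊢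
      exact ⟨hm.2.2, fun h => hm.2.1 h.symm, hm.1⟩
    · rintro ⟨v, u⟩ hm
      rfl
  ext p r
  have h1 := key (Pi.single r 1) p
  rw [Matrix.mulVec_mulVec, Matrix.mulVec_single_one] at h1
  exact h1

omit [Fintype V] in
theorem mat_deg (H : WSet K V adj) (o : V → ℕ) (p q : H.Cell) (h : H.mat o p q ≠ 0) :
    p.1.2.card = q.1.2.card + 1 := by
  by_contra hc
  apply h
  unfold mat
  refine Finset.sum_eq_zero fun v hv => ?_
  rw [if_neg]
  intro h1
  apply hc
  rw [h1, Finset.card_erase_add_one hv]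

/-- The complex of the cubes. -/
def cx (H : WSet K V adj) (o : V → ℕ) (ho : Function.Injective o) : BCx K where
  S := H.Cell
  deg p := p.1.2.card
  D := H.mat o
  deg_D := H.mat_deg o
  D_D := H.mat_mat o ho

end WSet

/-! ### the states -/

/-- The data with one element, no cube going down: its complex is the augmented chain complex
(degree shifted by one) of the full subcomplex on `A`. -/
def stW (K : Type) [CommRing K] {V : Type} (adj : V → V → Prop) (A : Finset V) : WSet K V adj where
  X := Unit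
  ρ := fun _ x => x
  des := fun _ => A
  w := fun _ _ => 0
  comm := fun _ _ _ _ => rfl
  des_ne := fun _ _ _ _ h _ => h
  w_comm := fun _ _ _ _ _ _ => rfl

/-- the augmented chain complex of the full subcomplex on `A`, degree shifted by one -/
def St {V : Type} [Fintype V] [DecidableEq V] (adj : V → V → Prop) (o : V → ℕ)
    (ho : Function.Injective o) (A : Finset V) : BCx ℤ := (stW ℤ adj A).cx o ho

/-! ### finite sets with heights modulo `d` -/

/-- A finite set with an action, descending vertices, and a height modulo `d`. -/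
structure HSet (V : Type) (adj : V → V → Prop) where
  X : Type
  [fin : Fintype X]
  [dec : DecidableEq X]
  ρ : V → X → X
  ρρ : ∀ v x, ρ v (ρ v x) = x
  comm : ∀ u v, adj u v → ∀ x, ρ u (ρ v x) = ρ v (ρ u x)
  des : X → Finset V
  des_self : ∀ v x, v ∈ des (ρ v x) ↔ v ∉ des x
  des_ne : ∀ u v, adj u v → ∀ x, u ∈ des (ρ v x) ↔ u ∈ des x
  d : ℕ
  a : X → ℕ
  lt : ∀ x, a x < d
  step : ∀ v x, v ∈ des x → a x = a (ρ v x) + 1 ∨ (a x = 0 ∧ a (ρ v x) + 1 = d)

attribute [instance] HSet.fin HSet.dec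

namespace HSet

variable {V : Type} {adj : V → V → Prop} (H : HSet V adj)

/-- the exponent of `u` for a step down from `x` -/
def wr (x : H.X) : ℕ := if H.a x = 0 then 1 else 0

theorem a_step (u v : V) (x : H.X) (hu : u ∈ H.des x) (hv : v ∈ H.des x) :
    H.a (H.ρ u x) = H.a (H.ρ v x) := by
  have h1 := H.step u x hu
  have h2 := H.step v x hv
  omega

/-- the data over `ℤ[u]` -/
def toW : WSet (Polynomial ℤ) V adj where
  X := H.X
  ρ := H.ρ
  des := H.des
  w := fun _ x => Polynomial.X ^ H.wr x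
  comm := H.comm
  des_ne := fun u v h x hu _ => (H.des_ne u v h x).2 hu
  w_comm := fun u v _ x hu hv => by
    unfold wr
    rw [H.a_step u v x hu hv]

/-- the data over `ℤ` with `u = 0` -/
def toW0 : WSet ℤ V adj where
  X := H.X
  ρ := H.ρ
  des := H.des
  w := fun _ x => if H.a x = 0 then 0 else 1
  comm := H.comm
  des_ne := fun u v h x hu _ => (H.des_ne u v h x).2 hu
  w_comm := fun u v _ x hu hv => by
    rw [H.a_step u v x hu hv]

/-- The complex over `ℤ[u]`. -/
def Mor [Fintype V] [DecidableEq V] (o : V → ℕ) (ho : Function.Injective o) :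
    BCx (Polynomial ℤ) := H.toW.cx o ho

/-- The action on the cyclic cover `X × ℤ/m`: a step down from height `0` adds one to the second
coordinate. -/
def cov [DecidableEq V] (m : ℕ) (v : V) (x : H.X × ZMod m) : H.X × ZMod m :=
  (H.ρ v x.1, if v ∈ H.des x.1 then x.2 + (H.wr x.1 : ZMod m) else x.2 - (H.wr (H.ρ v x.1) : ZMod m))

end HSet

end Pool.LU
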