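import Pool.Agent.H81.XF.Uni
import Pool.Agent.H13.LK.Defs

/-!
# LEMMA U: the position at a uniform time has at least the entropy of the rows

`Y` is a random line in dimension `k` (position and velocity), `T` a random time which may depend
on the line and on everything else, `Z` is any side information. The sum of the entropies of the
rows (the next `X` digits of the position at the beginning of the window of `T`, given the window,
the previous digits and `Z`) is at most the entropy of the position of the line at a UNIFORM time,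
which is independent of everything, given this time and `Z`. (Helper3, K_XB, section 1.)
-/

set_option autoImplicit false

namespace Pool.LU

open Finset Real
open Pool.Agent.H49.Ent Pool.Agent.H32.Dense Pool.STK Pool.KA Pool.KSAT Pool.K2S Pool.PC Pool.XF
open Pool.LK

section

variable {Ω ι S T : Type} [Fintype Ω] [Fintype ι]

/-- Subadditivity for a finite family. -/
theorem CH_pi {p : Ω → ℝ} (hp0 : ∀ ω, 0 ≤ p ω) (X : Ω → ι → S) (W : Ω → T) :
    CH p X W ≤ ∑ i, CH p (fun ω => X ω i) W := by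
  classical
  have key : ∀ s : Finset ι, CH p (fun ω i => if i ∈ s then some (X ω i) else none) W ≤
      ∑ i ∈ s, CH p (fun ω => X ω i) W := by
    intro s
    induction s using Finset.induction_on with
    | empty =>
      rw [Finset.sum_empty]
      refine le_of_eq (CH_eq_zero hp0 ?_)
      intro ω ω' _ _ _
      funext i
      simp
    | insert j s hj ih =>
      rw [Finset.sum_insert hj]
      have h1 : CH p (fun ω i => if i ∈ insert j s then some (X ω i) else none) W ≤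
          CH p (fun ω => (X ω j, fun i => if i ∈ s then some (X ω i) else none)) W := by
        refine CH_mono_left hp0 ?_
        intro ω ω' _ _ h
        simp only [Prod.mk.injEq] at h
        funext i
        by_cases hi : i = j
        · subst hi
          simp only [Finset.mem_insert_self, if_true]
          rw [h.1.1]
        · have h2 := congrFun h.1.2 i
          simp only [Finset.mem_insert, hi, false_or]
          exact h2
      have h2 := CH_subadd hp0 (fun ω => X ω j) (fun ω i => if i ∈ s then some (X ω i) else none) W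
      linarith
  refine le_trans (le_of_eq ?_) (key Finset.univ)
  refine CH_congr hp0 ?_ ?_ (fun _ _ _ _ h => h) (fun _ _ _ _ h => h)
  · intro ω ω' _ _ h
    have h3 := (Prod.ext_iff.mp h).1
    simp only at h3
    funext i
    simp only [Finset.mem_univ, if_true, Option.some.injEq]
    rw [h3]
  · intro ω ω' _ _ h
    have h4 := (Prod.ext_iff.mp h).1
    funext i
    have h3 := congrFun h4 i
    simp only [Finset.mem_univ, if_true, Option.some.injEq] at h3
    exact h3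

end

/-- The position at the beginning of the window of `T` of length `2 ^ (-v)`, to `v` digits. The
time is `T / 2 ^ s`. -/
noncomputable def posv {Ω : Type} {k : ℕ} (s : ℕ) (Y : Ω → Fin 2 → Fin k → ℝ) (T : Ω → ℕ) (v : ℕ)
    (ω : Ω) (j : Fin k) : ℤ :=
  ⌊(2 : ℝ) ^ v * (Y ω 0 j + ((T ω / 2 ^ (s - v) : ℕ) : ℝ) / 2 ^ v * Y ω 1 j)⌋

/-- The position at the uniform time, to `s` digits. -/
noncomputable def uposk {Ω : Type} {k : ℕ} (s : ℕ) (Y : Ω → Fin 2 → Fin k → ℝ)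
    (u : Ω × Fin (2 ^ s)) (j : Fin k) : ℤ :=
  ⌊(2 : ℝ) ^ s * (Y u.1 0 j + ((u.2 : ℕ) : ℝ) / 2 ^ s * Y u.1 1 j)⌋

/-- The length of the part of `[v, v']` after `κ`. -/
def exc (v v' κ : ℕ) : ℕ := v' - max v (min κ v')

theorem exc_sum (f : ℕ → ℕ) (κ : ℕ) (hf : ∀ i, f i ≤ f (i + 1)) (n : ℕ) :
    ∑ i ∈ Finset.range n, exc (f i) (f (i + 1)) κ ≤ f n - min κ (f n) := by
  induction n with
  | zero => simp
  | succ n ih =>
    rw [Finset.sum_range_succ]
    have h1 := hf n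
    unfold exc at ih ⊢
    omega

/-- The window digits. -/
theorem tdiv {s v v' : ℕ} (hvv : v ≤ v') (hv' : v' ≤ s) (t : ℕ) :
    0 ≤ ((t / 2 ^ (s - v') : ℕ) : ℝ) / 2 ^ v' - ((t / 2 ^ (s - v) : ℕ) : ℝ) / 2 ^ v ∧
    ((t / 2 ^ (s - v') : ℕ) : ℝ) / 2 ^ v' - ((t / 2 ^ (s - v) : ℕ) : ℝ) / 2 ^ v ≤ 1 / 2 ^ v := by
  have e : t / 2 ^ (s - v) = (t / 2 ^ (s - v')) / 2 ^ (v' - v) := by
    rw [Nat.div_div_eq_div_mul, ← pow_add]
    congr 2
    omega
  obtain ⟨a, ha⟩ : ∃ a, a = t / 2 ^ (s - v') := ⟨_, rfl⟩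
  rw [e, ← ha]
  have h1 := Nat.div_mul_le_self a (2 ^ (v' - v))
  have h2 := Nat.lt_div_mul_add (a := a) (b := 2 ^ (v' - v)) (by positivity)
  have h3 : ((a / 2 ^ (v' - v) : ℕ) : ℝ) * 2 ^ (v' - v) ≤ a := by exact_mod_cast h1
  have h4 : (a : ℝ) < ((a / 2 ^ (v' - v) : ℕ) : ℝ) * 2 ^ (v' - v) + 2 ^ (v' - v) := by
    exact_mod_cast h2
  have e2 : (2 : ℝ) ^ v' = 2 ^ v * 2 ^ (v' - v) := by
    rw [← pow_add]
    congr 1
    omega
  have p1 : (0 : ℝ) < 2 ^ v := by positivity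
  have p2 : (0 : ℝ) < 2 ^ (v' - v) := by positivity
  obtain ⟨q, hq⟩ : ∃ q : ℝ, q = ((a / 2 ^ (v' - v) : ℕ) : ℝ) := ⟨_, rfl⟩
  rw [← hq] at h3 h4 ⊢
  have e3 : (a : ℝ) / 2 ^ v' - q / 2 ^ v = (a - q * 2 ^ (v' - v)) / (2 ^ v * 2 ^ (v' - v)) := by
    rw [e2]
    field_simp
  rw [e3]
  constructor
  · exact div_nonneg (by linarith) (by positivity)
  · rw [div_le_div_iff₀ (by positivity) p1]
    nlinarith

section

variable {Ω ζ : Type} [Fintype Ω] {k : ℕ}

/-- The label. -/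
noncomputable def labk (κ : Ω → Fin k → ℕ) (M : Ω → Fin k → Fin k → ℝ)
    (Y : Ω → Fin 2 → Fin k → ℝ) (ω : Ω) :
    ((Fin k → ℕ) × (Fin k → Fin k → ℝ)) × ((Fin k → ℤ) × (Fin k → ℤ)) :=
  ((κ ω, M ω), (flk (κ ω) (mco (M ω) (Y ω 0)), flk (κ ω) (mco (M ω) (Y ω 1))))

theorem mco_sub2 (M : Fin k → Fin k → ℝ) (x x' : Fin k → ℝ) (i : Fin k) :
    mco M (fun j => x j - x' j) i = mco M x i - mco M x' i := by
  unfold mco
  rw [← Finset.sum_sub_distrib]
  exact Finset.sum_congr rfl fun j _ => by ring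

theorem mco_bd {M : Fin k → Fin k → ℝ} {b r : ℝ} (hM : ∀ i j, |M i j| ≤ b) {x : Fin k → ℝ}
    (hx : ∀ j, |x j| ≤ r) (i : Fin k) : |mco M x i| ≤ k * b * r := by
  unfold mco
  refine (Finset.abs_sum_le_sum_abs _ _).trans ?_
  have : ∑ j : Fin k, |M i j * x j| ≤ ∑ _j : Fin k, b * r :=
    Finset.sum_le_sum fun j _ => abs_mul_le (hM i j) (hx j)
  refine this.trans (le_of_eq ?_)
  rw [Finset.sum_const, Finset.card_univ, Fintype.card_fin, nsmul_eq_mul]
  ring

/-- **The rows and the cost of a label.** -/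
theorem rows_cost (k : ℕ) (b : ℝ) (hb : 1 ≤ b) : ∃ C : ℝ, 0 ≤ C ∧
    ∀ (Ω ζ : Type) [Fintype Ω] (p : Ω → ℝ) (Z : Ω → ζ) (Y : Ω → Fin 2 → Fin k → ℝ) (T : Ω → ℕ)
      (κ : Ω → Fin k → ℕ) (M : Ω → Fin k → Fin k → ℝ) (s : ℕ) (v : ℕ → ℕ) (n : ℕ),
      IsLaw p → (∀ ω j, |Y ω 1 j| ≤ 1) → (∀ ω, T ω < 2 ^ s) → (∀ i, v i ≤ v (i + 1)) →
      v n ≤ s → (∀ ω i, κ ω i ≤ s) → (∀ ω i j, |M ω i j| ≤ b) →
      (∀ ω, ∃ B : Fin k → Fin k → ℝ, (∀ i j, |B i j| ≤ b) ∧
        ∀ i l, ∑ j, B i j * M ω j l = if i = l then 1 else 0) →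
      ∑ i ∈ Finset.range n, CH p (posv s Y T (v (i + 1)))
          (fun ω => (T ω / 2 ^ (s - v (i + 1)), (posv s Y T (v i) ω, Z ω))) ≤
        CH p (labk κ M Y) Z + (∑ ω, p ω * ∑ i, ((s : ℝ) - κ ω i)) * Real.log 2 + C * n := by
  have hlg : ∀ r : ℝ, 1 ≤ r → 0 ≤ Real.log r := fun r hr => Real.log_nonneg hr
  have hk0 : (0 : ℝ) ≤ k := Nat.cast_nonneg k
  have hb0 : 0 ≤ b := by linarith
  have hkb : 0 ≤ (k : ℝ) * b := mul_nonneg hk0 hb0
  obtain ⟨l1, hl1⟩ : ∃ r, r = Real.log (2 * (3 * (k * b) + 3) + 1) := ⟨_, rfl⟩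
  obtain ⟨l2, hl2⟩ : ∃ r, r = Real.log (2 * (k * b + 1) + 1) := ⟨_, rfl⟩
  have hl10 : 0 ≤ l1 := by rw [hl1]; exact hlg _ (by linarith)
  have hl20 : 0 ≤ l2 := by rw [hl2]; exact hlg _ (by linarith)
  have l9 : 0 ≤ Real.log 9 := hlg 9 (by norm_num)
  refine ⟨k * l1 + k * l2 + k * Real.log 9, by positivity, ?_⟩
  intro Ω ζ _ p Z Y T κ M s v n hp hY hT hv hvn hκ hM hinv
  have hp0 := hp.nonneg
  have vmono : ∀ i j, i ≤ j → v i ≤ v j := fun i j h => monotone_nat_of_le_succ hv h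
  -- the contexts
  obtain ⟨c, hc⟩ : ∃ c : ℕ → Ω → ℕ × ((Fin k → ℤ) × ζ),
    c = fun i ω => (T ω / 2 ^ (s - v i), (posv s Y T (v i) ω, Z ω)) := ⟨_, rfl⟩
  obtain ⟨τ, hτ⟩ : ∃ τ : ℕ → Ω → ℕ, τ = fun i ω => T ω / 2 ^ (s - v (i + 1)) := ⟨_, rfl⟩
  obtain ⟨P, hP⟩ : ∃ P : ℕ → Ω → Fin k → ℤ, P = fun i => posv s Y T (v (i + 1)) := ⟨_, rfl⟩
  have Tlo : ∀ {a a' t t' : ℕ}, a ≤ a' → a' ≤ s → t / 2 ^ (s - a') = t' / 2 ^ (s - a') →
      t / 2 ^ (s - a) = t' / 2 ^ (s - a) := by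
    intro a a' t t' h1 h2 h
    have e : ∀ t : ℕ, t / 2 ^ (s - a) = (t / 2 ^ (s - a')) / 2 ^ (a' - a) := by
      intro t
      rw [Nat.div_div_eq_div_mul, ← pow_add]
      congr 2
      omega
    rw [e, e t', h]
  -- one change of the time
  have mv : ∀ {a a' : ℕ} {ω ω' : Ω}, a ≤ a' → a' ≤ s → T ω / 2 ^ (s - a') = T ω' / 2 ^ (s - a') →
      ∀ {r : ℝ} (j : Fin k),
      (|(Y ω 0 j - Y ω' 0 j) + ((T ω / 2 ^ (s - a') : ℕ) : ℝ) / 2 ^ a' * (Y ω 1 j - Y ω' 1 j)| ≤ r →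
      |(Y ω 0 j - Y ω' 0 j) + ((T ω / 2 ^ (s - a) : ℕ) : ℝ) / 2 ^ a * (Y ω 1 j - Y ω' 1 j)| ≤
        r + 2 / 2 ^ a) ∧
      (|(Y ω 0 j - Y ω' 0 j) + ((T ω / 2 ^ (s - a) : ℕ) : ℝ) / 2 ^ a * (Y ω 1 j - Y ω' 1 j)| ≤ r →
      |(Y ω 0 j - Y ω' 0 j) + ((T ω / 2 ^ (s - a') : ℕ) : ℝ) / 2 ^ a' * (Y ω 1 j - Y ω' 1 j)| ≤
        r + 2 / 2 ^ a) := by
    intro a a' ω ω' h1 h2 _ r j
    obtain ⟨g1, g2⟩ := tdiv h1 h2 (T ω)
    obtain ⟨α, hα⟩ : ∃ α : ℝ, α = ((T ω / 2 ^ (s - a') : ℕ) : ℝ) / 2 ^ a' := ⟨_, rfl⟩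
    obtain ⟨β, hβ⟩ : ∃ β : ℝ, β = ((T ω / 2 ^ (s - a) : ℕ) : ℝ) / 2 ^ a := ⟨_, rfl⟩
    rw [← hα, ← hβ] at g1 g2 ⊢
    have g3 : |Y ω 1 j - Y ω' 1 j| ≤ 2 := by
      refine (abs_sub _ _).trans ?_
      linarith [hY ω j, hY ω' j]
    have g4 : |(α - β) * (Y ω 1 j - Y ω' 1 j)| ≤ 1 / 2 ^ a * 2 :=
      abs_mul_le (by rw [abs_of_nonneg g1]; exact g2) g3
    have e1 : (2 : ℝ) / 2 ^ a = 1 / 2 ^ a * 2 := by ring
    rw [e1]
    constructor
    · intro h
      have e : (Y ω 0 j - Y ω' 0 j) + β * (Y ω 1 j - Y ω' 1 j) =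
          ((Y ω 0 j - Y ω' 0 j) + α * (Y ω 1 j - Y ω' 1 j)) -
            (α - β) * (Y ω 1 j - Y ω' 1 j) := by ring
      rw [e]
      exact (abs_sub _ _).trans (add_le_add h g4)
    · intro h
      have e : (Y ω 0 j - Y ω' 0 j) + α * (Y ω 1 j - Y ω' 1 j) =
          ((Y ω 0 j - Y ω' 0 j) + β * (Y ω 1 j - Y ω' 1 j)) +
            (α - β) * (Y ω 1 j - Y ω' 1 j) := by ring
      rw [e]
      exact (abs_add_le _ _).trans (add_le_add h g4)
  -- equal positions
  have same : ∀ {a : ℕ} {ω ω' : Ω}, T ω / 2 ^ (s - a) = T ω' / 2 ^ (s - a) →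
      posv s Y T a ω = posv s Y T a ω' → ∀ j, |(Y ω 0 j - Y ω' 0 j) +
        ((T ω / 2 ^ (s - a) : ℕ) : ℝ) / 2 ^ a * (Y ω 1 j - Y ω' 1 j)| ≤ 1 / 2 ^ a := by
    intro a ω ω' hT h j
    have h1 := congrFun h j
    unfold posv at h1
    rw [← hT] at h1
    have := floor_same h1
    refine le_trans (le_of_eq ?_) this
    congr 1
    ring
  -- close positions
  have clo : ∀ {a : ℕ} {ω ω' : Ω} {r : ℝ} (j : Fin k), T ω / 2 ^ (s - a) = T ω' / 2 ^ (s - a) →
      |(Y ω 0 j - Y ω' 0 j) + ((T ω / 2 ^ (s - a) : ℕ) : ℝ) / 2 ^ a * (Y ω 1 j - Y ω' 1 j)| ≤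
        r / 2 ^ a → |((posv s Y T a ω j - posv s Y T a ω' j : ℤ) : ℝ)| ≤ r + 1 := by
    intro a ω ω' r j hT h
    unfold posv
    refine floor_close ?_
    rw [← hT]
    refine le_trans (le_of_eq ?_) h
    congr 1
    ring
  -- the next context determines the row and the context
  have nx : ∀ i < n, CH p (fun ω => (P i ω, (τ i ω, c i ω))) (c (i + 1)) ≤ k * Real.log 9 := by
    intro i hi
    have hvi : v (i + 1) ≤ s := (vmono _ _ hi).trans hvn
    have h1 : CH p (fun ω => (P i ω, (τ i ω, c i ω))) (c (i + 1)) ≤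
        CH p (posv s Y T (v i)) (c (i + 1)) := by
      refine CH_mono_left hp0 fun ω ω' _ _ h => ?_
      rw [hc, hP, hτ] at *
      simp only [Prod.mk.injEq] at h ⊢
      obtain ⟨h1, h2, h3, h4⟩ := h
      exact ⟨h3, h2, Tlo (hv i) hvi h2, h1, h4⟩
    refine h1.trans ?_
    have h2 := CH_bI hp (posv s Y T (v i)) (c (i + 1)) (3 + 1) (by norm_num) ?_
    · rw [Fintype.card_fin] at h2
      refine h2.trans (le_of_eq ?_)
      norm_num
    · intro ω ω' _ _ h j
      rw [hc] at h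
      simp only [Prod.mk.injEq] at h
      obtain ⟨h2, h3, h4⟩ := h
      have g1 := same h2 h3 j
      have g2 := (mv (hv i) hvi h2 j).1 g1
      refine clo j (Tlo (hv i) hvi h2) (g2.trans ?_)
      have g3 : (1 : ℝ) / 2 ^ (v (i + 1)) ≤ 1 / 2 ^ (v i) :=
        one_div_le_one_div_of_le (by positivity) (pow_le_pow_right₀ (by norm_num) (hv i))
      have e : (3 : ℝ) / 2 ^ (v i) = 1 / 2 ^ (v i) + 2 / 2 ^ (v i) := by ring
      rw [e]
      linarith
  have key := payI hp0 n (labk κ M Y) c τ P nx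
  -- the entropy of the rows
  have hrow : ∀ i < n, CH p (P i) (fun ω => (τ i ω, c i ω)) =
      CH p (posv s Y T (v (i + 1)))
        (fun ω => (T ω / 2 ^ (s - v (i + 1)), (posv s Y T (v i) ω, Z ω))) := by
    intro i hi
    have hvi : v (i + 1) ≤ s := (vmono _ _ hi).trans hvn
    rw [hP, hτ, hc]
    refine CH_congr hp0 (fun _ _ _ _ h => (Prod.ext_iff.mp h).1)
      (fun _ _ _ _ h => (Prod.ext_iff.mp h).1) ?_ ?_
    · intro ω ω' _ _ h
      simp only [Prod.mk.injEq] at h ⊢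
      exact ⟨h.1, h.2.2.1, h.2.2.2⟩
    · intro ω ω' _ _ h
      simp only [Prod.mk.injEq] at h ⊢
      exact ⟨h.1, Tlo (hv i) hvi h.1, h.2.1, h.2.2⟩
  have hsum : ∑ i ∈ Finset.range n, CH p (P i) (fun ω => (τ i ω, c i ω)) =
      ∑ i ∈ Finset.range n, CH p (posv s Y T (v (i + 1)))
        (fun ω => (T ω / 2 ^ (s - v (i + 1)), (posv s Y T (v i) ω, Z ω))) :=
    Finset.sum_congr rfl fun i hi => hrow i (Finset.mem_range.mp hi)
  rw [hsum] at key
  have hlab : CH p (labk κ M Y) (c 0) ≤ CH p (labk κ M Y) Z :=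
    CH_mono_cond hp0 fun ω ω' _ _ h => by
      rw [hc] at h
      simp only [Prod.mk.injEq] at h
      exact h.2.2
  -- a row, given the label
  have hgiv : ∀ i < n, CH p (P i) (fun ω => (labk κ M Y ω, (τ i ω, c i ω))) ≤
      (∑ j, Ex p (fun ω => (exc (v i) (v (i + 1)) (κ ω j) : ℝ) * Real.log 2)) +
        (k * l1 + k * l2) := by
    intro i hi
    have hvi : v (i + 1) ≤ s := (vmono _ _ hi).trans hvn
    obtain ⟨a, ha⟩ : ∃ a, a = v i := ⟨_, rfl⟩
    obtain ⟨a', ha'⟩ : ∃ a', a' = v (i + 1) := ⟨_, rfl⟩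
    have haa : a ≤ a' := by rw [ha, ha']; exact hv i
    have has : a' ≤ s := by rw [ha']; exact hvi
    obtain ⟨W, hW⟩ : ∃ W : Ω → (((Fin k → ℕ) × (Fin k → Fin k → ℝ)) ×
      ((Fin k → ℤ) × (Fin k → ℤ))) × (ℕ × (ℕ × ((Fin k → ℤ) × ζ))),
      W = fun ω => (labk κ M Y ω, (τ i ω, c i ω)) := ⟨_, rfl⟩
    have Wex : ∀ ω ω', W ω = W ω' → κ ω = κ ω' ∧ M ω = M ω' ∧
        flk (κ ω) (mco (M ω) (Y ω 0)) = flk (κ ω') (mco (M ω') (Y ω' 0)) ∧
        flk (κ ω) (mco (M ω) (Y ω 1)) = flk (κ ω') (mco (M ω') (Y ω' 1)) ∧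
        T ω / 2 ^ (s - a') = T ω' / 2 ^ (s - a') ∧ posv s Y T a ω = posv s Y T a ω' := by
      intro ω ω' h
      rw [hW, hτ, hc] at h
      unfold labk at h
      simp only [Prod.mk.injEq] at h
      rw [ha, ha']
      tauto
    have hPi : P i = posv s Y T a' := by rw [hP, ha']
    rw [← hW, hPi, ← ha', ← ha]
    -- the coordinates in the frame
    obtain ⟨x, hx⟩ : ∃ x : Ω → Fin k → ℝ, x = fun ω j =>
      Y ω 0 j + ((T ω / 2 ^ (s - a') : ℕ) : ℝ) / 2 ^ a' * Y ω 1 j := ⟨_, rfl⟩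
    obtain ⟨ξ, hξ⟩ : ∃ ξ : Ω → Fin k → ℤ, ξ = fun ω j => ⌊(2 : ℝ) ^ a' * mco (M ω) (x ω) j⌋ :=
      ⟨_, rfl⟩
    have xd : ∀ ω ω', T ω / 2 ^ (s - a') = T ω' / 2 ^ (s - a') → ∀ j, x ω j - x ω' j =
        (Y ω 0 j - Y ω' 0 j) + ((T ω / 2 ^ (s - a') : ℕ) : ℝ) / 2 ^ a' *
          (Y ω 1 j - Y ω' 1 j) := by
      intro ω ω' h j
      rw [hx]
      dsimp only
      rw [← h]
      ring
    have h2a' : (0 : ℝ) < 2 ^ a' := by positivity
    have a1 : ∀ j, CH p (fun ω => ξ ω j) W ≤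
        Ex p (fun ω => (exc a a' (κ ω j) : ℝ) * Real.log 2) + l1 := by
      intro j
      have h := CH_le_int hp0 hp.sum_one (fun ω => ξ ω j) W
        (fun ω => (3 * (k * b) + 2) * 2 ^ (exc a a' (κ ω j)) + 1) ?_
      · refine h.trans ?_
        have e1 : Ex p (fun ω => (exc a a' (κ ω j) : ℝ) * Real.log 2) + l1 =
            Ex p (fun ω => (exc a a' (κ ω j) : ℝ) * Real.log 2 + l1) := by
          rw [Ex_add, Ex_const hp.sum_one]
        rw [e1]
        refine Ex_mono hp0 fun ω _ => ?_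
        have h1 : 2 * ((3 * (k * b) + 2) * 2 ^ (exc a a' (κ ω j)) + 1) + 1 ≤
            (2 : ℝ) ^ (exc a a' (κ ω j)) * (2 * (3 * (k * b) + 3) + 1) := by
          have : (1 : ℝ) ≤ 2 ^ (exc a a' (κ ω j)) := one_le_pow₀ (by norm_num)
          nlinarith
        refine (Real.log_le_log (by positivity) h1).trans ?_
        rw [Real.log_mul (by positivity) (by positivity), Real.log_pow, ← hl1]
      · intro ω ω' _ _ h
        obtain ⟨h1, h2, h3, h4, h5, h6⟩ := Wex ω ω' h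
        have hTa := Tlo haa has h5
        -- the first bound
        have b1 : |mco (M ω) (fun j => x ω j - x ω' j) j| ≤ k * b * (3 / 2 ^ a) := by
          refine mco_bd (hM ω) (fun j => ?_) j
          rw [xd ω ω' h5]
          have g1 := same hTa h6 j
          have g2 := (mv haa has h5 j).2 g1
          refine g2.trans (le_of_eq ?_)
          ring
        -- the second bound
        have b2 : |mco (M ω) (fun j => x ω j - x ω' j) j| ≤ 2 / 2 ^ (κ ω j) := by
          have g3 := congrFun h3 j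
          have g4 := congrFun h4 j
          unfold flk at g3 g4
          rw [← h1, ← h2] at g3 g4
          have g5 := floor_same g3
          have g6 := floor_same g4
          have e1 : mco (M ω) (fun j => x ω j - x ω' j) j =
              (mco (M ω) (Y ω 0) j - mco (M ω) (Y ω' 0) j) +
              ((T ω / 2 ^ (s - a') : ℕ) : ℝ) / 2 ^ a' *
                (mco (M ω) (Y ω 1) j - mco (M ω) (Y ω' 1) j) := by
            unfold mco
            rw [← Finset.sum_sub_distrib, ← Finset.sum_sub_distrib, Finset.mul_sum,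
              ← Finset.sum_add_distrib]
            refine Finset.sum_congr rfl fun l _ => ?_
            show M ω j l * (x ω l - x ω' l) = _
            rw [xd ω ω' h5]
            ring
          rw [e1]
          refine (abs_add_le _ _).trans ?_
          have g7 : |((T ω / 2 ^ (s - a') : ℕ) : ℝ) / 2 ^ a'| ≤ 1 := by
            rw [abs_of_nonneg (by positivity), div_le_one h2a']
            have g8 : T ω / 2 ^ (s - a') < 2 ^ a' := by
              rw [Nat.div_lt_iff_lt_mul (by positivity), ← pow_add]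
              have : a' + (s - a') = s := by omega
              rw [this]
              exact hT ω
            exact_mod_cast g8.le
          have g9 := abs_mul_le g7 g6
          have e7 : (2 : ℝ) / 2 ^ (κ ω j) = 1 / 2 ^ (κ ω j) + 1 * (1 / 2 ^ (κ ω j)) := by ring
          rw [e7]
          exact add_le_add g5 g9
        have e2 : ξ ω j - ξ ω' j = ⌊(2 : ℝ) ^ a' * mco (M ω) (x ω) j⌋ -
            ⌊(2 : ℝ) ^ a' * mco (M ω) (x ω') j⌋ := by
          rw [hξ]
          dsimp only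
          rw [← h2]
        rw [e2]
        refine floor_close ?_
        rw [← mco_sub2]
        have hex : exc a a' (κ ω j) = a' - max a (min (κ ω j) a') := rfl
        rcases le_total (κ ω j) a with h7 | h7
        · refine b1.trans ?_
          have e3 : exc a a' (κ ω j) = a' - a := by rw [hex]; omega
          have e4 : (2 : ℝ) ^ a' = 2 ^ a * 2 ^ (a' - a) := by
            rw [← pow_add]
            congr 1
            omega
          rw [e3, e4]
          have p1 : (0 : ℝ) < 2 ^ a := by positivity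
          have p2 : (0 : ℝ) < 2 ^ (a' - a) := by positivity
          have e5 : (3 * (k * b) + 2) * (2 : ℝ) ^ (a' - a) / (2 ^ a * 2 ^ (a' - a)) =
              (3 * (k * b) + 2) / 2 ^ a := by
            field_simp
          rw [e5]
          have e6 : k * b * (3 / (2 : ℝ) ^ a) = (3 * (k * b)) / 2 ^ a := by ring
          rw [e6]
          exact div_le_div_of_nonneg_right (by linarith) p1.le
        · refine b2.trans ?_
          rcases le_total (κ ω j) a' with h8 | h8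
          · have e3 : exc a a' (κ ω j) = a' - κ ω j := by rw [hex]; omega
            have e4 : (2 : ℝ) ^ a' = 2 ^ (κ ω j) * 2 ^ (a' - κ ω j) := by
              rw [← pow_add]
              congr 1
              omega
            rw [e3, e4]
            have p1 : (0 : ℝ) < 2 ^ (κ ω j) := by positivity
            have p2 : (0 : ℝ) < 2 ^ (a' - κ ω j) := by positivity
            have e5 : (3 * (k * b) + 2) * (2 : ℝ) ^ (a' - κ ω j) /
                (2 ^ (κ ω j) * 2 ^ (a' - κ ω j)) = (3 * (k * b) + 2) / 2 ^ (κ ω j) := by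
              field_simp
            rw [e5]
            exact div_le_div_of_nonneg_right (by linarith) p1.le
          · have e3 : exc a a' (κ ω j) = 0 := by rw [hex]; omega
            rw [e3, pow_zero, mul_one]
            have g1 : (2 : ℝ) / 2 ^ (κ ω j) ≤ 2 / 2 ^ a' :=
              div_le_div_of_nonneg_left (by norm_num) h2a'
                (pow_le_pow_right₀ (by norm_num) h8)
            refine g1.trans (div_le_div_of_nonneg_right (by linarith) h2a'.le)
    have a2 : CH p (posv s Y T a') (fun ω => (ξ ω, W ω)) ≤ k * l2 := by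
      have h := CH_bI hp (posv s Y T a') (fun ω => (ξ ω, W ω)) (k * b + 1) (by linarith) ?_
      · rw [Fintype.card_fin, ← hl2] at h
        exact h
      · intro ω ω' _ _ h j
        simp only [Prod.mk.injEq] at h
        obtain ⟨hz, hW'⟩ := h
        obtain ⟨h1, h2, h3, h4, h5, h6⟩ := Wex ω ω' hW'
        refine clo j h5 ?_
        rw [← xd ω ω' h5]
        obtain ⟨B, hB, hBi⟩ := hinv ω
        have g1 : ∀ l, |mco (M ω) (fun j => x ω j - x ω' j) l| ≤ 1 / 2 ^ a' := by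
          intro l
          have h7 := congrFun hz l
          rw [hξ] at h7
          dsimp only at h7
          rw [← h2] at h7
          rw [mco_sub2]
          exact floor_same h7
        have e1 : x ω j - x ω' j = mco B (mco (M ω) (fun j => x ω j - x ω' j)) j := by
          unfold mco
          have e2 : ∀ k', B j k' * ∑ l, M ω k' l * (x ω l - x ω' l) =
              ∑ l, B j k' * M ω k' l * (x ω l - x ω' l) := by
            intro k'
            rw [Finset.mul_sum]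
            exact Finset.sum_congr rfl fun l _ => by ring
          rw [Finset.sum_congr rfl fun k' _ => e2 k', Finset.sum_comm]
          have e3 : ∀ l, ∑ k', B j k' * M ω k' l * (x ω l - x ω' l) =
              (if j = l then 1 else 0) * (x ω l - x ω' l) := by
            intro l
            rw [← Finset.sum_mul, hBi]
          rw [Finset.sum_congr rfl fun l _ => e3 l]
          simp
        rw [e1]
        refine (mco_bd hB g1 j).trans (le_of_eq ?_)
        ring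
    have b1 := CH_le_add hp0 (posv s Y T a') ξ W
    have b2 := CH_pi hp0 ξ W
    have b3 : ∑ j, CH p (fun ω => ξ ω j) W ≤
        ∑ j, (Ex p (fun ω => (exc a a' (κ ω j) : ℝ) * Real.log 2) + l1) :=
      Finset.sum_le_sum fun j _ => a1 j
    rw [Finset.sum_add_distrib, Finset.sum_const, Finset.card_univ, Fintype.card_fin,
      nsmul_eq_mul] at b3
    linarith
  have hgs : ∑ i ∈ Finset.range n, CH p (P i) (fun ω => (labk κ M Y ω, (τ i ω, c i ω))) ≤
      (∑ ω, p ω * ∑ i, ((s : ℝ) - κ ω i)) * Real.log 2 + n * (k * l1 + k * l2) := by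
    refine (Finset.sum_le_sum fun i hi => hgiv i (Finset.mem_range.mp hi)).trans ?_
    rw [Finset.sum_add_distrib, Finset.sum_const, Finset.card_range, nsmul_eq_mul]
    refine add_le_add ?_ le_rfl
    unfold Ex
    rw [Finset.sum_comm' (t' := Finset.univ) (s' := fun _ => Finset.range n) (by simp)]
    have e1 : ∀ j, ∑ i ∈ Finset.range n, ∑ ω, p ω * ((exc (v i) (v (i + 1)) (κ ω j) : ℝ) *
        Real.log 2) = ∑ ω, p ω * (((∑ i ∈ Finset.range n, exc (v i) (v (i + 1)) (κ ω j) : ℕ) : ℝ) *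
        Real.log 2) := by
      intro j
      rw [Finset.sum_comm]
      refine Finset.sum_congr rfl fun ω _ => ?_
      push_cast
      rw [Finset.sum_mul, Finset.mul_sum]
    rw [Finset.sum_congr rfl fun j _ => e1 j, Finset.sum_comm, Finset.sum_mul]
    refine Finset.sum_le_sum fun ω _ => ?_
    rw [← Finset.mul_sum, mul_assoc]
    refine mul_le_mul_of_nonneg_left ?_ (hp0 ω)
    rw [Finset.sum_mul]
    refine Finset.sum_le_sum fun j _ => ?_
    refine mul_le_mul_of_nonneg_right ?_ (Real.log_nonneg (by norm_num))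
    have h1 := exc_sum v (κ ω j) hv n
    have h2 : ∑ i ∈ Finset.range n, exc (v i) (v (i + 1)) (κ ω j) ≤ s - κ ω j := by
      have := hκ ω j
      omega
    have h3 : ((∑ i ∈ Finset.range n, exc (v i) (v (i + 1)) (κ ω j) : ℕ) : ℝ) ≤
        ((s - κ ω j : ℕ) : ℝ) := by exact_mod_cast h2
    rw [Nat.cast_sub (hκ ω j)] at h3
    exact h3
  have e : ((k : ℝ) * l1 + k * l2 + k * Real.log 9) * n = n * (k * l1 + k * l2) +
      n * (k * Real.log 9) := by ring
  rw [e]
  linarith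

/-- The family with the uniform time. -/
noncomputable def ufam {Ω ζ : Type} [Fintype Ω] {p : Ω → ℝ} (hp : IsLaw p) {k : ℕ} (s : ℕ)
    (Y : Ω → Fin 2 → Fin k → ℝ) (hY : ∀ ω j, |Y ω 1 j| ≤ 1) (Z : Ω → ζ) : Fam k s where
  Ω := Ω × Fin (2 ^ s)
  ζ := ζ
  fin := inferInstance
  p := uni s p
  u := fun w => Y w.1 0
  d := fun w => Y w.1 1
  T := fun w => (w.2 : ℕ)
  Z := fun w => Z w.1
  isLaw := uni_law hp s
  dir := fun w => hY w.1
  tim := fun w => w.2.2

theorem ufam_Tm {Ω ζ : Type} [Fintype Ω] {p : Ω → ℝ} (hp : IsLaw p) {k : ℕ} (s : ℕ)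
    (Y : Ω → Fin 2 → Fin k → ℝ) (hY : ∀ ω j, |Y ω 1 j| ≤ 1) (Z : Ω → ζ) {e : ℝ} (he : 0 ≤ e) :
    (ufam hp s Y hY Z).Tm e := by
  unfold Fam.Tm
  have h : CH (ufam hp s Y hY Z).p (ufam hp s Y hY Z).T
      (fun ω => ((ufam hp s Y hY Z).l ω, (ufam hp s Y hY Z).Z ω)) = s * Real.log 2 := by
    obtain ⟨f, hf⟩ : ∃ f : Ω → ((Fin k → ℝ) × (Fin k → ℝ)) × ζ,
      f = fun ω => ((Y ω 0, Y ω 1), Z ω) := ⟨_, rfl⟩
    have e1 : (fun ω => ((ufam hp s Y hY Z).l ω, (ufam hp s Y hY Z).Z ω)) =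
        fun u : Ω × Fin (2 ^ s) => f u.1 := by
      rw [hf]
      rfl
    rw [e1]
    show CH (uni s p) (fun u : Ω × Fin (2 ^ s) => (u.2 : ℕ)) (fun u => f u.1) = _
    unfold CH
    have h1 : H (uni s p) (fun u => ((u.2 : ℕ), f u.1)) = H (uni s p) (fun u => (u.2, f u.1)) := by
      refine H_congr (uni_law hp s).nonneg ?_ ?_
      · intro u u' _ _ h
        have h2 := Prod.ext_iff.mp h
        exact Prod.ext (congrArg (fun x : Fin (2 ^ s) => (x : ℕ)) h2.1) h2.2
      · intro u u' _ _ h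
        have h2 := Prod.ext_iff.mp h
        exact Prod.ext (Fin.ext h2.1) h2.2
    rw [h1, H_uni hp s f, (uni_marg s).H f]
    ring
  rw [h]
  linarith

/-- **LEMMA U.** Rows at any times are at most the entropy at a uniform time. -/
theorem lemU (k : ℕ) (b : ℝ) (hb : 1 ≤ b) (hL : LKS k b) : ∃ C : ℝ, 0 ≤ C ∧
    ∀ ε > 0, ∃ s₀ : ℕ, ∀ (Ω ζ : Type) [Fintype Ω] (p : Ω → ℝ) (Z : Ω → ζ)
      (Y : Ω → Fin 2 → Fin k → ℝ) (T : Ω → ℕ) (s : ℕ) (v : ℕ → ℕ) (n : ℕ),
      IsLaw p → (∀ ω j, |Y ω 1 j| ≤ 1) → (∀ ω, T ω < 2 ^ s) → (∀ i, v i ≤ v (i + 1)) →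
      v n ≤ s → s₀ ≤ s →
      ∑ i ∈ Finset.range n, CH p (posv s Y T (v (i + 1)))
          (fun ω => (T ω / 2 ^ (s - v (i + 1)), (posv s Y T (v i) ω, Z ω))) ≤
        CH (uni s p) (uposk s Y) (fun u => (u.2, Z u.1)) + ε * s + C * n := by
  obtain ⟨C, hC, hrc⟩ := rows_cost k b hb
  refine ⟨C, hC, fun ε hε => ?_⟩
  obtain ⟨θ, hθ, J₀, hJ⟩ := hL ε hε
  refine ⟨J₀, ?_⟩
  intro Ω ζ _ p Z Y T s v n hp hY hT hv hvn hs
  have hq := uni_law hp s
  obtain ⟨B, hB⟩ := hJ s hs (ufam hp s Y hY Z) (ufam_Tm hp s Y hY Z (by positivity))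
  have key := hrc (Ω × Fin (2 ^ s)) ζ (uni s p) (fun u => Z u.1) (fun u => Y u.1)
    (fun u => T u.1) B.k B.M s v n hq (fun u => hY u.1) (fun u => hT u.1) hv hvn B.le B.bd B.inv
  have e1 : ∀ i, CH (uni s p) (posv s (fun u : Ω × Fin (2 ^ s) => Y u.1) (fun u => T u.1) (v (i + 1)))
      (fun ω => (T ω.1 / 2 ^ (s - v (i + 1)),
        (posv s (fun u : Ω × Fin (2 ^ s) => Y u.1) (fun u => T u.1) (v i) ω, Z ω.1))) =
      CH p (posv s Y T (v (i + 1)))
        (fun ω => (T ω / 2 ^ (s - v (i + 1)), (posv s Y T (v i) ω, Z ω))) := fun i =>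
    (uni_marg s).CH (posv s Y T (v (i + 1)))
      (fun ω => (T ω / 2 ^ (s - v (i + 1)), (posv s Y T (v i) ω, Z ω)))
  rw [Finset.sum_congr rfl fun i _ => e1 i] at key
  have e2 : CH (uni s p) (labk B.k B.M (fun u : Ω × Fin (2 ^ s) => Y u.1)) (fun u => Z u.1) +
      (∑ ω, uni s p ω * ∑ i, ((s : ℝ) - B.k ω i)) * Real.log 2 = B.cost := rfl
  have e3 : CH (ufam hp s Y hY Z).p ((ufam hp s Y hY Z).X s) (ufam hp s Y hY Z).W =
      CH (uni s p) (uposk s Y) (fun u => (u.2, Z u.1)) := by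
    refine CH_congr hq.nonneg ?_ ?_ ?_ ?_
    · intro u u' _ _ h
      exact (Prod.ext_iff.mp h).1
    · intro u u' _ _ h
      exact (Prod.ext_iff.mp h).1
    · intro u u' _ _ h
      have h2 := Prod.ext_iff.mp h
      exact Prod.ext (Fin.ext h2.1) h2.2
    · intro u u' _ _ h
      have h2 := Prod.ext_iff.mp h
      exact Prod.ext (congrArg (fun x : Fin (2 ^ s) => (x : ℕ)) h2.1) h2.2
  rw [e3] at hB
  linarith

end

end Pool.LU
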