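import Pool.Agent.H81.LU.Unif
import Pool.Agent.H50.LK.LK1
import Pool.Agent.H13.LK.LK2

/-!
# LEMMA U in natural units

The velocities need not be bounded: it suffices that the integral parts of the position and of the
velocity are functions of the side information. The cases `k = 1`, `k = 2` are unconditional.
-/

set_option autoImplicit false

namespace Pool.LU

open Finset Real
open Pool.Agent.H49.Ent Pool.Agent.H32.Dense Pool.STK Pool.KA Pool.KSAT Pool.K2S Pool.PC Pool.XF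
open Pool.LK

/-- The fractional parts. -/
noncomputable def frc {Ω : Type} {k : ℕ} (Y : Ω → Fin 2 → Fin k → ℝ) (ω : Ω) (a : Fin 2)
    (j : Fin k) : ℝ := Y ω a j - ⌊Y ω a j⌋

theorem posv_frc {Ω : Type} {k : ℕ} (s : ℕ) (Y : Ω → Fin 2 → Fin k → ℝ) (T : Ω → ℕ) (v : ℕ)
    (ω : Ω) (j : Fin k) : posv s Y T v ω j = posv s (frc Y) T v ω j +
      (2 ^ v * ⌊Y ω 0 j⌋ + ((T ω / 2 ^ (s - v) : ℕ) : ℤ) * ⌊Y ω 1 j⌋) := by
  unfold posv
  obtain ⟨t, ht⟩ : ∃ t : ℕ, t = T ω / 2 ^ (s - v) := ⟨_, rfl⟩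
  rw [← ht, ← Int.floor_add_intCast]
  congr 1
  unfold frc
  push_cast
  have h : (2 : ℝ) ^ v ≠ 0 := by positivity
  field_simp
  ring

theorem uposk_frc {Ω : Type} {k : ℕ} (s : ℕ) (Y : Ω → Fin 2 → Fin k → ℝ) (u : Ω × Fin (2 ^ s))
    (j : Fin k) : uposk s Y u j = uposk s (frc Y) u j +
      (2 ^ s * ⌊Y u.1 0 j⌋ + ((u.2 : ℕ) : ℤ) * ⌊Y u.1 1 j⌋) := by
  unfold uposk
  rw [← Int.floor_add_intCast]
  congr 1
  unfold frc
  push_cast
  have h : (2 : ℝ) ^ s ≠ 0 := by positivity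
  field_simp
  ring

/-- **LEMMA U in natural units.** -/
theorem lemUf (k : ℕ) (b : ℝ) (hb : 1 ≤ b) (hL : LKS k b) : ∃ C : ℝ, 0 ≤ C ∧
    ∀ ε > 0, ∃ s₀ : ℕ, ∀ (Ω ζ : Type) [Fintype Ω] (p : Ω → ℝ) (Z : Ω → ζ)
      (Y : Ω → Fin 2 → Fin k → ℝ) (T : Ω → ℕ) (s : ℕ) (v : ℕ → ℕ) (n : ℕ),
      IsLaw p → Det p Z (fun ω a j => ⌊Y ω a j⌋) → (∀ ω, T ω < 2 ^ s) →
      (∀ i, v i ≤ v (i + 1)) → v n ≤ s → s₀ ≤ s →
      ∑ i ∈ Finset.range n, CH p (posv s Y T (v (i + 1)))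
          (fun ω => (T ω / 2 ^ (s - v (i + 1)), (posv s Y T (v i) ω, Z ω))) ≤
        CH (uni s p) (uposk s Y) (fun u => (u.2, Z u.1)) + ε * s + C * n := by
  obtain ⟨C, hC, h⟩ := lemU k b hb hL
  refine ⟨C, hC, fun ε hε => ?_⟩
  obtain ⟨s₀, h2⟩ := h ε hε
  refine ⟨s₀, ?_⟩
  intro Ω ζ _ p Z Y T s v n hp hZ hT hv hvn hs
  have hp0 := hp.nonneg
  have vmono : ∀ i j, i ≤ j → v i ≤ v j := fun i j h => monotone_nat_of_le_succ hv h
  have key := h2 Ω ζ p Z (frc Y) T s v n hp (fun ω j => by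
    unfold frc
    rw [abs_of_nonneg (by linarith [Int.floor_le (Y ω 1 j)])]
    linarith [Int.lt_floor_add_one (Y ω 1 j)]) hT hv hvn hs
  have Tlo : ∀ {a a' t t' : ℕ}, a ≤ a' → a' ≤ s → t / 2 ^ (s - a') = t' / 2 ^ (s - a') →
      t / 2 ^ (s - a) = t' / 2 ^ (s - a) := by
    intro a a' t t' h1 h2 h
    have e : ∀ t : ℕ, t / 2 ^ (s - a) = (t / 2 ^ (s - a')) / 2 ^ (a' - a) := by
      intro t
      rw [Nat.div_div_eq_div_mul, ← pow_add]
      congr 2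
      omega
    rw [e, e t', h]
  -- the floors
  have fl : ∀ ω ω', 0 < p ω → 0 < p ω' → Z ω = Z ω' → ∀ a j, ⌊Y ω a j⌋ = ⌊Y ω' a j⌋ :=
    fun ω ω' hω hω' h a j => congrFun (congrFun (hZ ω ω' hω hω' h) a) j
  have tr : ∀ {a : ℕ} {ω ω' : Ω}, 0 < p ω → 0 < p ω' → Z ω = Z ω' →
      T ω / 2 ^ (s - a) = T ω' / 2 ^ (s - a) →
      (posv s Y T a ω = posv s Y T a ω' ↔ posv s (frc Y) T a ω = posv s (frc Y) T a ω') := by
    intro a ω ω' hω hω' hz ht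
    constructor <;>
    · intro h
      funext j
      have h1 := congrFun h j
      have h2 := posv_frc s Y T a ω j
      have h3 := posv_frc s Y T a ω' j
      rw [← ht, ← fl ω ω' hω hω' hz, ← fl ω ω' hω hω' hz] at h3
      omega
  have e1 : ∀ i ∈ Finset.range n, CH p (posv s Y T (v (i + 1)))
      (fun ω => (T ω / 2 ^ (s - v (i + 1)), (posv s Y T (v i) ω, Z ω))) =
      CH p (posv s (frc Y) T (v (i + 1)))
        (fun ω => (T ω / 2 ^ (s - v (i + 1)), (posv s (frc Y) T (v i) ω, Z ω))) := by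
    intro i hi
    have hi' := Finset.mem_range.mp hi
    have hvi : v (i + 1) ≤ s := (vmono _ _ hi').trans hvn
    refine CH_congr hp0 ?_ ?_ ?_ ?_
    · intro ω ω' hω hω' h
      simp only [Prod.mk.injEq] at h
      obtain ⟨h1, h3, h4, h5⟩ := h
      exact (tr hω hω' h5 h3).1 h1
    · intro ω ω' hω hω' h
      simp only [Prod.mk.injEq] at h
      obtain ⟨h1, h3, h4, h5⟩ := h
      exact (tr hω hω' h5 h3).2 h1
    · intro ω ω' hω hω' h
      simp only [Prod.mk.injEq] at h ⊢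
      obtain ⟨h3, h4, h5⟩ := h
      exact ⟨h3, (tr hω hω' h5 (Tlo (hv i) hvi h3)).1 h4, h5⟩
    · intro ω ω' hω hω' h
      simp only [Prod.mk.injEq] at h ⊢
      obtain ⟨h3, h4, h5⟩ := h
      exact ⟨h3, (tr hω hω' h5 (Tlo (hv i) hvi h3)).2 h4, h5⟩
  have e2 : CH (uni s p) (uposk s Y) (fun u => (u.2, Z u.1)) =
      CH (uni s p) (uposk s (frc Y)) (fun u => (u.2, Z u.1)) := by
    have tr2 : ∀ {u u' : Ω × Fin (2 ^ s)}, 0 < uni s p u → 0 < uni s p u' → u.2 = u'.2 →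
        Z u.1 = Z u'.1 → (uposk s Y u = uposk s Y u' ↔ uposk s (frc Y) u = uposk s (frc Y) u') := by
      intro u u' hu hu' hi hz
      have f := fl _ _ (uni_pos s hu) (uni_pos s hu') hz
      constructor <;>
      · intro h
        funext j
        have h1 := congrFun h j
        have h2 := uposk_frc s Y u j
        have h3 := uposk_frc s Y u' j
        rw [← hi, ← f, ← f] at h3
        omega
    refine CH_congr (uni_law hp s).nonneg ?_ ?_ (fun _ _ _ _ h => h) (fun _ _ _ _ h => h)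
    · intro u u' hu hu' h
      simp only [Prod.mk.injEq] at h
      obtain ⟨h1, h3, h4⟩ := h
      exact (tr2 hu hu' h3 h4).1 h1
    · intro u u' hu hu' h
      simp only [Prod.mk.injEq] at h
      obtain ⟨h1, h3, h4⟩ := h
      exact (tr2 hu hu' h3 h4).2 h1
  rw [Finset.sum_congr rfl e1, e2]
  exact key

/-- **LEMMA U in dimension 1.** -/
theorem lemU_one : ∃ C : ℝ, 0 ≤ C ∧
    ∀ ε > 0, ∃ s₀ : ℕ, ∀ (Ω ζ : Type) [Fintype Ω] (p : Ω → ℝ) (Z : Ω → ζ)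
      (Y : Ω → Fin 2 → Fin 1 → ℝ) (T : Ω → ℕ) (s : ℕ) (v : ℕ → ℕ) (n : ℕ),
      IsLaw p → Det p Z (fun ω a j => ⌊Y ω a j⌋) → (∀ ω, T ω < 2 ^ s) →
      (∀ i, v i ≤ v (i + 1)) → v n ≤ s → s₀ ≤ s →
      ∑ i ∈ Finset.range n, CH p (posv s Y T (v (i + 1)))
          (fun ω => (T ω / 2 ^ (s - v (i + 1)), (posv s Y T (v i) ω, Z ω))) ≤
        CH (uni s p) (uposk s Y) (fun u => (u.2, Z u.1)) + ε * s + C * n :=
  lemUf 1 1 le_rfl lk1_thm

/-- **LEMMA U in dimension 2.** -/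
theorem lemU_two : ∃ C : ℝ, 0 ≤ C ∧
    ∀ ε > 0, ∃ s₀ : ℕ, ∀ (Ω ζ : Type) [Fintype Ω] (p : Ω → ℝ) (Z : Ω → ζ)
      (Y : Ω → Fin 2 → Fin 2 → ℝ) (T : Ω → ℕ) (s : ℕ) (v : ℕ → ℕ) (n : ℕ),
      IsLaw p → Det p Z (fun ω a j => ⌊Y ω a j⌋) → (∀ ω, T ω < 2 ^ s) →
      (∀ i, v i ≤ v (i + 1)) → v n ≤ s → s₀ ≤ s →
      ∑ i ∈ Finset.range n, CH p (posv s Y T (v (i + 1)))
          (fun ω => (T ω / 2 ^ (s - v (i + 1)), (posv s Y T (v i) ω, Z ω))) ≤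
        CH (uni s p) (uposk s Y) (fun u => (u.2, Z u.1)) + ε * s + C * n :=
  lemUf 2 8 (by norm_num) (lks_two le_rfl)

end Pool.LU
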