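import Pool.Agent.H81.LU.YMain
import Pool.Agent.H22.LU.HGT
import Pool.Agent.H22.LU.NST
import Pool.Agent.H84.LU.YMain

/-!
Project LU: the question Q1 has a negative answer, also for orientable manifolds.
-/

set_option autoImplicit false

noncomputable section

namespace Pool.LU

theorem exists_partY_orient : ∃ Z : PartY, Orient Z.Y := by
  obtain ⟨Y⟩ := YC.ycert
  exact partY_or_of_cert (lvl_main hgt nst) chn Y

theorem not_q1Or : ¬ Q1Or := by
  obtain ⟨Y⟩ := YC.ycert
  exact not_q1Or_of hgt nst Y

theorem not_q1_of_or : ¬ Pool.H3.L2.Q1 := not_q1_of_not_q1Or not_q1Or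

end Pool.LU
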