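import Pool.Agent.H81.LU.YFin
import Pool.Agent.H99.LU.OrFin
import Pool.Agent.H83.LU.GEN
import Pool.Agent.H13.LU.MCY
import Pool.Agent.H72.LU.YFil
import Pool.Agent.H39.LU.TG
import Pool.Agent.H99.LU.ReszY
import Pool.Agent.H85.LU.LVL
import Pool.Agent.H85.LU.CHN

/-!
Project LU, part Y: final assembly of the five-dimensional route, orientable version.
-/

set_option autoImplicit false

open scoped BigOperators Topology
open Filter Pool.H3.L2

noncomputable section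

namespace Pool.LU

/-- Part Y from the certificate, with an orientable manifold. -/
theorem partY_or_of_cert (lvl : LVLStmt) (chn : CHNStmt) (Y : YCert) :
    ∃ Z : PartY, Orient Z.Y := by
  classical
  obtain ⟨W, iW, ⟨R⟩⟩ := rax Y.V Y.P.adj Y.P.adj_symm Y.P.adj_irrefl
  obtain ⟨-, d2, -⟩ := dim _ Y.V Y.P Y.good
  obtain ⟨u, v, huv, hadj⟩ := d2 (by omega)
  have : Infinite R.χ.ker := inf Y.V Y.P.adj Y.P.adj_symm W R u v huv hadj
  obtain ⟨C, hC, ε, hε, hK⟩ := lvl Y.V Y.P.adj Y.P.adj_symm Y.P.adj_irrefl W R Y.o Y.ho 5 Y.κ Y.s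
    Y.proper Y.mix Y.surj Y.triv Y.fin Y.bad
  obtain ⟨c⟩ := exists_wchain Y.P.adj_symm R
  obtain ⟨c', h1, h2⟩ := chn R.χ.ker c C ε hε hK
  exact exists_partY_or (k := 2) (partB1_main 5 Y.V Y.P W R Y.good) C hC c' h1 ε hε h2
    (hTop_ker Y.P Y.good R)

theorem lvl_main (hgt : HGTStmt) (nst : NSTStmt) : LVLStmt :=
  lvl gen mcy fil tg hgt nst resz

/-- what is left of part Y -/
theorem not_q1Or_of (hgt : HGTStmt) (nst : NSTStmt) (Y : YCert) : ¬ Q1Or := by
  obtain ⟨Z, hZ⟩ := partY_or_of_cert (lvl_main hgt nst) chn Y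
  exact not_q1Or_of_Y Z hZ

end Pool.LU
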